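import Pool.Agent.Helper70.LA.Base

/-!
# MP_c61924_co, module LA-CORE
-/

set_option autoImplicit false

namespace Pool.Agent.Helper70.LA

open Finset

section core

variable {K : Type} [Fintype K] [DecidableEq K] {ι : Type} [DecidableEq ι]

theorem core (U : ι → Finset K) (I : Finset ι) (X X' : Set (K → Bool)) (hX : X ⊆ X')
    (κ ε : ℝ) (hε : 0 < ε) (hε1 : ε ≤ 1) (hκ : κ ≤ ε ^ I.card / 2)
    (h : ∀ x ∈ X, ∀ S ⊆ I, EU (US U S) (ind X'ᶜ) x ≤ κ) :
    ∃ Q : Set (K → Bool), X ⊆ Q ∧ Q ⊆ X' ∧ SelfCons U I Q (2 ^ I.card * ε) := by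
  classical
  let β : Finset ι → (K → Bool) → ℝ := fun V => EU (US U V) (ind X'ᶜ)
  let bad : Finset ι → Set (K → Bool) := fun V => {y | ε ^ V.card / 2 < β V y}
  refine ⟨{x | ∀ V ⊆ I, β V x ≤ ε ^ V.card / 2}, ?_, ?_, ?_⟩
  · intro x hx V hV
    have h1 := h x hx V hV
    have h2 : ε ^ I.card ≤ ε ^ V.card := pow_le_pow_of_le_one hε.le hε1 (card_le_card hV)
    show EU (US U V) (ind X'ᶜ) x ≤ ε ^ V.card / 2
    linarith
  · intro x hx
    by_contra hn
    have h1 := hx ∅ (empty_subset _)
    have h2 : β ∅ x = 1 := by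
      show EU (US U ∅) (ind X'ᶜ) x = 1
      rw [US_empty, EU_empty]
      exact ind_of_mem hn
    rw [h2] at h1
    norm_num at h1
  · intro x hx S hS hSn
    have h1 : ∀ y, ind {x | ∀ V ⊆ I, β V x ≤ ε ^ V.card / 2}ᶜ y ≤
        ∑ V ∈ I.powerset, ind (bad V) y := by
      intro y
      by_cases hy : y ∈ ({x | ∀ V ⊆ I, β V x ≤ ε ^ V.card / 2}ᶜ : Set (K → Bool))
      · have hy2 : ¬ ∀ V ⊆ I, β V y ≤ ε ^ V.card / 2 := hy
        push Not at hy2
        obtain ⟨V, hV, hVy⟩ := hy2
        rw [ind_of_mem hy]
        have h3 : ind (bad V) y = 1 := ind_of_mem hVy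
        rw [← h3]
        exact single_le_sum (f := fun V => ind (bad V) y) (fun V _ => ind_nonneg _ _)
          (mem_powerset.2 hV)
      · rw [ind_of_notMem hy]
        exact sum_nonneg (fun V _ => ind_nonneg _ _)
    refine (EU_mono _ h1 x).trans ?_
    rw [EU_sum]
    have h2 : ∀ V ∈ I.powerset, EU (US U S) (ind (bad V)) x ≤ ε := by
      intro V hV
      rw [mem_powerset] at hV
      by_cases hSV : S ⊆ V
      · have h3 : EU (US U S) (ind (bad V)) x = 0 := by
          have h4 : ∀ y, ind (bad V) (mix (US U S) x y) = 0 := by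
            intro y
            apply ind_of_notMem
            show ¬ (ε ^ V.card / 2 < β V (mix (US U S) x y))
            have h5 : β V (mix (US U S) x y) = β V x :=
              EU_inv (US_mono U hSV) (ind X'ᶜ) x y
            rw [h5]
            exact not_lt.2 (hx V hV)
          unfold EU
          simp only [h4]
          exact av_const 0
        rw [h3]
        exact hε.le
      · have hp : 0 < ε ^ V.card := pow_pos hε _
        have h3 : ∀ y, ind (bad V) y ≤ 2 / ε ^ V.card * β V y := by
          intro y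
          by_cases hy : y ∈ bad V
          · rw [ind_of_mem hy]
            have hy2 : ε ^ V.card / 2 < β V y := hy
            rw [div_mul_eq_mul_div, le_div_iff₀ hp]
            linarith
          · rw [ind_of_notMem hy]
            have : 0 ≤ β V y := EU_ind_nonneg _ _ _
            positivity
        refine (EU_mono _ h3 x).trans ?_
        rw [EU_mul_left]
        have h4 : EU (US U S) (β V) x = β (S ∪ V) x := by
          show EU (US U S) (EU (US U V) (ind X'ᶜ)) x = EU (US U (S ∪ V)) (ind X'ᶜ) x
          rw [EU_EU, US_union]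
        rw [h4]
        have h5 : β (S ∪ V) x ≤ ε ^ (S ∪ V).card / 2 := hx _ (union_subset hS hV)
        have h6 : V.card + 1 ≤ (S ∪ V).card := by
          apply card_lt_card
          refine ⟨subset_union_right, fun h7 => hSV (subset_union_left.trans h7)⟩
        have h7 : ε ^ (S ∪ V).card ≤ ε ^ (V.card + 1) := pow_le_pow_of_le_one hε.le hε1 h6
        have h8 : β (S ∪ V) x ≤ ε ^ V.card * ε / 2 := by
          rw [pow_succ] at h7
          linarith
        calc 2 / ε ^ V.card * β (S ∪ V) x ≤ 2 / ε ^ V.card * (ε ^ V.card * ε / 2) :=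
              mul_le_mul_of_nonneg_left h8 (by positivity)
          _ = ε := by field_simp
    calc ∑ V ∈ I.powerset, EU (US U S) (ind (bad V)) x ≤ ∑ V ∈ I.powerset, ε := sum_le_sum h2
      _ = 2 ^ I.card * ε := by
        rw [sum_const, card_powerset, nsmul_eq_mul]
        push_cast
        ring

end core

end Pool.Agent.Helper70.LA
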