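import Pool.Agent.Helper70.LA.Base

/-!
# MP_c61924_co, module LA-SEC
-/

set_option autoImplicit false

namespace Pool.Agent.Helper70.LA

open Finset

section sec

variable {K : Type} [Fintype K] [DecidableEq K] {ι : Type} [Fintype ι] [DecidableEq ι]

theorem weak_type (U : ℕ → Finset K) (hU : Antitone U) (R : ℕ) (Y : Set (K → Bool)) (θ : ℝ)
    (hθ : 0 ≤ θ) :
    θ * av (ind {x | ∃ r ≤ R, θ ≤ EU (U r) (ind Y) x}) ≤ av (ind Y) := by
  classical
  let A : ℕ → Set (K → Bool) := fun r =>
    {x | θ ≤ EU (U r) (ind Y) x ∧ ∀ s < r, ¬ θ ≤ EU (U s) (ind Y) x}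
  have hinv : ∀ r x y, ind (A r) (mix (U r) x y) = ind (A r) x := by
    intro r x y
    have h1 : ∀ s ≤ r, EU (U s) (ind Y) (mix (U r) x y) = EU (U s) (ind Y) x :=
      fun s hs => EU_inv (hU hs) (ind Y) x y
    have h2 : mix (U r) x y ∈ A r ↔ x ∈ A r := by
      constructor
      · rintro ⟨h3, h4⟩
        refine ⟨by rwa [h1 r le_rfl] at h3, fun s hs => ?_⟩
        have := h4 s hs
        rwa [h1 s hs.le] at this
      · rintro ⟨h3, h4⟩
        refine ⟨by rwa [h1 r le_rfl], fun s hs => ?_⟩
        rw [h1 s hs.le]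
        exact h4 s hs
    by_cases hx : x ∈ A r
    · rw [ind_of_mem hx, ind_of_mem (h2.2 hx)]
    · rw [ind_of_notMem hx, ind_of_notMem (fun h => hx (h2.1 h))]
  have hle : ∀ x, ind {x | ∃ r ≤ R, θ ≤ EU (U r) (ind Y) x} x ≤
      ∑ r ∈ range (R + 1), ind (A r) x := by
    intro x
    by_cases hx : x ∈ {x | ∃ r ≤ R, θ ≤ EU (U r) (ind Y) x}
    · obtain ⟨r, hr, hr2⟩ := hx
      have hex : ∃ r, θ ≤ EU (U r) (ind Y) x := ⟨r, hr2⟩
      have h1 : x ∈ A (Nat.find hex) := ⟨Nat.find_spec hex, fun s hs => Nat.find_min hex hs⟩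
      have h2 : Nat.find hex ≤ r := Nat.find_min' hex hr2
      have h3 : ind {x | ∃ r ≤ R, θ ≤ EU (U r) (ind Y) x} x ≤ ind (A (Nat.find hex)) x := by
        rw [ind_of_mem h1]
        exact ind_le_one _ _
      refine h3.trans ?_
      exact single_le_sum (f := fun r => ind (A r) x) (fun r _ => ind_nonneg _ _)
        (mem_range.2 (by omega))
    · rw [ind_of_notMem hx]
      exact sum_nonneg (fun r _ => ind_nonneg _ _)
  have hone : ∀ x, ∑ r ∈ range (R + 1), ind (A r) x ≤ 1 := by
    intro x
    by_cases hx : ∃ r, x ∈ A r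
    · obtain ⟨r, hr⟩ := hx
      by_cases hrR : r ∈ range (R + 1)
      · rw [sum_eq_single_of_mem r hrR]
        · exact ind_le_one _ _
        · intro s _ hs
          apply ind_of_notMem
          rintro ⟨h1, h2⟩
          rcases lt_or_gt_of_ne hs with h | h
          · exact hr.2 s h h1
          · exact h2 r h hr.1
      · rw [sum_eq_zero]
        · norm_num
        · intro s hs
          apply ind_of_notMem
          rintro ⟨h1, h2⟩
          have hs2 : s ≠ r := by
            rintro rfl
            exact hrR hs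
          rcases lt_or_gt_of_ne hs2 with h | h
          · exact hr.2 s h h1
          · exact h2 r h hr.1
    · rw [sum_eq_zero]
      · norm_num
      · intro s _
        exact ind_of_notMem (fun h => hx ⟨s, h⟩)
  calc θ * av (ind {x | ∃ r ≤ R, θ ≤ EU (U r) (ind Y) x})
      ≤ θ * av (fun x => ∑ r ∈ range (R + 1), ind (A r) x) :=
        mul_le_mul_of_nonneg_left (av_mono hle) hθ
    _ = ∑ r ∈ range (R + 1), θ * av (ind (A r)) := by
        rw [av_sum, mul_sum]
    _ ≤ ∑ r ∈ range (R + 1), av (fun x => ind (A r) x * ind Y x) := by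
        apply sum_le_sum
        intro r _
        rw [av_mul_inv (hinv r) (ind Y), ← av_mul_left]
        apply av_mono
        intro x
        by_cases hx : x ∈ A r
        · rw [ind_of_mem hx, mul_one, one_mul]
          exact hx.1
        · rw [ind_of_notMem hx, mul_zero, zero_mul]
    _ = av (fun x => ∑ r ∈ range (R + 1), ind (A r) x * ind Y x) := by rw [av_sum]
    _ ≤ av (ind Y) := by
        apply av_mono
        intro x
        rw [← sum_mul]
        calc (∑ r ∈ range (R + 1), ind (A r) x) * ind Y x ≤ 1 * ind Y x :=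
              mul_le_mul_of_nonneg_right (hone x) (ind_nonneg _ _)
          _ = ind Y x := one_mul _

theorem exists_sections (U : ι → ℕ → Finset K) (hU : ∀ i, Antitone (U i)) (R : ℕ)
    (hR : ∀ i, ∀ r, R ≤ r → U i r = ∅) (θ : ℝ) (hθ : 0 < θ) (hθ1 : θ ≤ 1) (Y : Set (K → Bool))
    (T : Finset ι) :
    ∃ Z : Set (K → Bool), Y ⊆ Z ∧ θ ^ T.card * av (ind Z) ≤ av (ind Y) ∧
      ∀ x ∉ Z, ∀ S ⊆ T, ∀ r : ι → ℕ,
        EU (US (fun i => U i (r i)) S) (ind Y) x ≤ T.card * θ := by
  classical
  induction T using Finset.induction_on with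
  | empty =>
    refine ⟨Y, subset_rfl, by simp, ?_⟩
    intro x hx S hS r
    rw [subset_empty.1 hS, US_empty, EU_empty, ind_of_notMem hx]
    simp
  | insert i T hi ih =>
    obtain ⟨Z, hYZ, hav, hsec⟩ := ih
    refine ⟨{x | ∃ r ≤ R, θ ≤ EU (U i r) (ind Z) x}, ?_, ?_, ?_⟩
    · intro x hx
      refine ⟨R, le_rfl, ?_⟩
      rw [hR i R le_rfl, EU_empty, ind_of_mem (hYZ hx)]
      exact hθ1
    · rw [card_insert_of_notMem hi, pow_succ, mul_assoc]
      refine le_trans ?_ hav
      exact mul_le_mul_of_nonneg_left (weak_type (U i) (hU i) R Z θ hθ.le) (pow_pos hθ _).le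
    · intro x hx S hS r
      have hx2 : ∀ r, EU (U i r) (ind Z) x < θ := by
        intro r
        by_contra hn
        rw [not_lt] at hn
        rcases le_or_gt r R with h | h
        · exact hx ⟨r, h, hn⟩
        · refine hx ⟨R, le_rfl, ?_⟩
          rw [hR i R le_rfl]
          rwa [hR i r h.le] at hn
      rw [card_insert_of_notMem hi]
      push_cast
      by_cases hiS : i ∈ S
      · have h1 : US (fun i => U i (r i)) S =
            U i (r i) ∪ US (fun i => U i (r i)) (S.erase i) := by
          conv_lhs => rw [← insert_erase hiS, insert_eq, US_union, US_singleton]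
        have h2 : ∀ y, EU (US (fun i => U i (r i)) (S.erase i)) (ind Y) y ≤
            ind Z y + T.card * θ := by
          intro y
          by_cases hy : y ∈ Z
          · rw [ind_of_mem hy]
            have h3 := EU_ind_le_one (US (fun i => U i (r i)) (S.erase i)) Y y
            have h4 : 0 ≤ (T.card : ℝ) * θ := by positivity
            linarith
          · rw [ind_of_notMem hy, zero_add]
            apply hsec y hy
            intro j hj
            rcases mem_insert.1 (hS (mem_of_mem_erase hj)) with h | h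
            · exact absurd h (ne_of_mem_erase hj)
            · exact h
        rw [h1, ← EU_EU]
        refine (EU_mono _ h2 x).trans ?_
        rw [EU_add, EU_const]
        have h5 := hx2 (r i)
        linarith
      · have h1 : S ⊆ T := by
          intro j hj
          rcases mem_insert.1 (hS hj) with h | h
          · exact absurd (h ▸ hj) hiS
          · exact h
        have h2 : x ∉ Z := by
          intro h
          have h3 := hx2 R
          rw [hR i R le_rfl, EU_empty, ind_of_mem h] at h3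
          linarith
        have h3 := hsec x h2 S h1 r
        linarith

theorem exists_ladder (U : ι → ℕ → Finset K) (hU : ∀ i, Antitone (U i)) (R : ℕ)
    (hR : ∀ i, ∀ r, R ≤ r → U i r = ∅) (θ : ℝ) (hθ : 0 < θ) (hθ1 : θ ≤ 1)
    (B : Set (K → Bool)) (k : ℕ) (hk : k = Fintype.card ι) :
    ∃ X : ℕ → Set (K → Bool), (∀ j < k, X j ⊆ X (j + 1)) ∧ X k = Bᶜ ∧
      θ ^ (k * k) * av (ind (X 0)ᶜ) ≤ av (ind B) ∧
      ∀ j < k, ∀ x ∈ X j, ∀ S : Finset ι, ∀ r : ι → ℕ,
        EU (US (fun i => U i (r i)) S) (ind (X (j + 1))ᶜ) x ≤ k * θ := by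
  classical
  choose Z hZ1 hZ2 hZ3 using fun Y => exists_sections U hU R hR θ hθ hθ1 Y univ
  have hcard : (univ : Finset ι).card = k := by rw [hk, card_univ]
  let Y : ℕ → Set (K → Bool) := fun t => Z^[t] B
  have hY : ∀ t, Y (t + 1) = Z (Y t) := fun t => Function.iterate_succ_apply' Z t B
  have hYav : ∀ t, θ ^ (k * t) * av (ind (Y t)) ≤ av (ind B) := by
    intro t
    induction t with
    | zero =>
      show θ ^ (k * 0) * av (ind B) ≤ av (ind B)
      simp
    | succ t ih =>
      rw [hY, Nat.mul_succ, pow_add, mul_assoc]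
      refine le_trans ?_ ih
      apply mul_le_mul_of_nonneg_left _ (pow_pos hθ _).le
      have := hZ2 (Y t)
      rwa [hcard] at this
  refine ⟨fun j => (Y (k - j))ᶜ, ?_, ?_, ?_, ?_⟩
  · intro j hj
    show (Y (k - j))ᶜ ⊆ (Y (k - (j + 1)))ᶜ
    have h1 : k - j = (k - (j + 1)) + 1 := by omega
    rw [h1, hY, Set.compl_subset_compl]
    exact hZ1 _
  · show (Y (k - k))ᶜ = Bᶜ
    rw [Nat.sub_self]
    rfl
  · show θ ^ (k * k) * av (ind ((Y (k - 0))ᶜ)ᶜ) ≤ av (ind B)
    rw [compl_compl, Nat.sub_zero]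
    exact hYav k
  · intro j hj x hx S r
    have h1 : k - j = (k - (j + 1)) + 1 := by omega
    have hx2 : x ∉ Z (Y (k - (j + 1))) := by
      have h2 : x ∈ (Y (k - j))ᶜ := hx
      rw [h1, hY] at h2
      exact h2
    show EU (US (fun i => U i (r i)) S) (ind ((Y (k - (j + 1)))ᶜ)ᶜ) x ≤ k * θ
    rw [compl_compl]
    have h3 := hZ3 _ x hx2 S (subset_univ _) r
    rwa [hcard] at h3

end sec

end Pool.Agent.Helper70.LA
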